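import Mathlib

set_option autoImplicit false

namespace Pool.Agent.Results.MP_83f734_co.Five

lemma uniq {α : ℝ} (hα : Irrational α) {a b c d : ℤ} (h : (a : ℝ) + α * b = c + α * d) :
    a = c ∧ b = d := by
  by_cases e : b = d
  · subst e
    exact ⟨by exact_mod_cast (by linarith : (a : ℝ) = c), rfl⟩
  · exfalso
    have h1 : ((b - d : ℤ) : ℝ) ≠ 0 := by exact_mod_cast sub_ne_zero.2 e
    refine hα ⟨((c - a : ℤ) : ℚ) / ((b - d : ℤ) : ℚ), ?_⟩
    push_cast at h1 ⊢
    field_simp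
    linarith

lemma core {α : ℝ} (hα : Irrational α) (h0 : 0 < α) (h1 : α < 1) (x y z a b : ℤ)
    (u0 : (a : ℝ) + α * b ≤ 1000 * z) (u1 : (a : ℝ) + α * b ≤ x + α * y + 1000 * (1 - z))
    (l0 : -(10 * (2 * x + 3 * y)) ≤ (a : ℝ) + α * b)
    (l1 : z - 10 * (2 - 2 * x - y) ≤ (a : ℝ) + α * b)
    (l2 : α * z - 10 * (2 - 2 * y + x) ≤ (a : ℝ) + α * b) :
    (z = 0 ∧ a = 0 ∧ b = 0 ∧ ((x = 0 ∧ y = 0) ∨ (x = 1 ∧ y = 0) ∨ (x = 0 ∧ y = 1))) ∨
    (z = 1 ∧ a = x ∧ b = y ∧ ((x = 0 ∧ y = 0) ∨ (x = 1 ∧ y = 0) ∨ (x = 0 ∧ y = 1))) := by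
  have hy : (0 ≤ α * y ∧ α * y ≤ y) ∨ ((y : ℝ) ≤ α * y ∧ α * y ≤ 0) := by
    rcases le_total (0 : ℝ) y with h | h
    · left; constructor <;> nlinarith
    · right; constructor <;> nlinarith
  have z0 : 0 ≤ z := by
    by_contra h
    have h' : (z : ℝ) ≤ -1 := by exact_mod_cast (by omega : z ≤ -1)
    have : (z : ℝ) ≤ α * z := by nlinarith
    linarith
  have z1 : z ≤ 1 := by
    by_contra h
    have h' : (2 : ℝ) ≤ z := by exact_mod_cast (by omega : 2 ≤ z)
    have : 0 ≤ α * z := by nlinarith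
    rcases hy with h | h <;> linarith [h.1, h.2]
  obtain rfl | rfl : z = 0 ∨ z = 1 := by omega
  · left
    simp only [Int.cast_zero, mul_zero, zero_sub] at *
    have a0 : 0 ≤ 2 * x + 3 * y := by exact_mod_cast (by linarith : (0 : ℝ) ≤ 2 * x + 3 * y)
    have a1 : 0 ≤ 2 - 2 * x - y := by exact_mod_cast (by linarith : (0 : ℝ) ≤ 2 - 2 * x - y)
    have a2 : 0 ≤ 2 - 2 * y + x := by exact_mod_cast (by linarith : (0 : ℝ) ≤ 2 - 2 * y + x)
    have h : (x = 0 ∧ y = 0) ∨ (x = 1 ∧ y = 0) ∨ (x = 0 ∧ y = 1) := by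
      obtain h | h | h : y = -1 ∨ y = 0 ∨ y = 1 := by omega
      all_goals omega
    have := uniq hα (a := a) (b := b) (c := 0) (d := 0) (by
      rcases h with ⟨rfl, rfl⟩ | ⟨rfl, rfl⟩ | ⟨rfl, rfl⟩ <;> push_cast at * <;> linarith)
    exact ⟨trivial, this.1, this.2, h⟩
  · right
    simp only [Int.cast_one, mul_one, sub_self, mul_zero, add_zero] at *
    have b1 : -2 < x := by
      exact_mod_cast (by rcases hy with h | h <;> linarith [h.1, h.2] : (-2 : ℝ) < x)
    have b2 : x < 2 := by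
      exact_mod_cast (by rcases hy with h | h <;> linarith [h.1, h.2] : (x : ℝ) < 2)
    have b3 : -2 < y := by
      exact_mod_cast (by rcases hy with h | h <;> linarith [h.1, h.2] : (-2 : ℝ) < y)
    have b4 : y < 2 := by
      exact_mod_cast (by rcases hy with h | h <;> linarith [h.1, h.2] : (y : ℝ) < 2)
    have h : (x = 0 ∧ y = 0) ∨ (x = 1 ∧ y = 0) ∨ (x = 0 ∧ y = 1) := by
      clear hy
      interval_cases x <;> interval_cases y <;> push_cast at * <;>
        first | (exfalso; linarith) | simp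
    have := uniq hα (a := a) (b := b) (c := x) (d := y) (by
      rcases h with ⟨rfl, rfl⟩ | ⟨rfl, rfl⟩ | ⟨rfl, rfl⟩ <;> push_cast at * <;> linarith)
    exact ⟨trivial, this.1, this.2, h⟩

theorem result (F : Subfield ℝ) (hF : ∃ β ∈ F, Irrational β) :
    ∃ (A : Fin 5 → Fin 5 → ℝ) (b : Fin 5 → ℝ), (∀ i j, A i j ∈ F) ∧ (∀ i, b i ∈ F) ∧
      ∀ w : Fin 5 → ℤ, (∀ i, ∑ j, A i j * (w j : ℝ) ≤ b i) ↔
        (w = 0 ∨ ∃ k, w = Pi.single k 1) := by
  obtain ⟨β, hβ, hi⟩ := hF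
  have hα : Irrational (Int.fract β) := hi.sub_intCast _
  have hm : Int.fract β ∈ F := F.sub_mem hβ (intCast_mem F _)
  have h0 : 0 < Int.fract β := lt_of_le_of_ne (Int.fract_nonneg _) (Ne.symm hα.ne_zero)
  have h1 := Int.fract_lt_one β
  generalize Int.fract β = α at *
  have n : ∀ k : ℤ, (k : ℝ) ∈ F := intCast_mem F
  let P : Fin 5 → Fin 5 → ℤ := ![![0, 0, -1000, -999, -1000], ![-1, 0, 1000, 1000, 1000],
    ![-20, -30, 0, -21, -30], ![20, 10, 1, 20, 11], ![-10, 20, 0, -11, 20]]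
  let Q : Fin 5 → Fin 5 → ℤ := ![![0, 0, 0, 0, 1], ![0, -1, 0, 0, 0],
    ![0, 0, 0, 0, -1], ![0, 0, 0, 0, -1], ![0, 0, 1, 1, 0]]
  let r : Fin 5 → ℤ := ![0, 1000, 0, 20, 20]
  refine ⟨fun i j => P i j + α * Q i j, fun i => r i,
    fun i j => F.add_mem (n _) (F.mul_mem hm (n _)), fun i => n _, fun w => ⟨fun h => ?_, ?_⟩⟩
  · have c0 := h 0
    have c1 := h 1
    have c2 := h 2
    have c3 := h 3
    have c4 := h 4
    simp [P, Q, r, Fin.sum_univ_five] at c0 c1 c2 c3 c4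
    have := core hα h0 h1 (w 0 + w 3) (w 1 + w 4) (w 2 + w 3 + w 4) (w 3) (w 4)
      (by push_cast; linarith) (by push_cast; linarith) (by push_cast; linarith)
      (by push_cast; linarith) (by push_cast; linarith)
    have e : ∀ v : Fin 5 → ℤ, w 0 = v 0 → w 1 = v 1 → w 2 = v 2 → w 3 = v 3 → w 4 = v 4 →
        w = v := by
      intro v a0 a1 a2 a3 a4
      ext i
      fin_cases i <;> assumption
    rcases this with ⟨a1, a2, a3, h | h | h⟩ | ⟨a1, a2, a3, h | h | h⟩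
    · exact Or.inl (e _ (by simp; omega) (by simp; omega) (by simp; omega) (by simp; omega)
        (by simp; omega))
    · exact Or.inr ⟨0, e _ (by simp; omega) (by simp; omega) (by simp; omega) (by simp; omega)
        (by simp; omega)⟩
    · exact Or.inr ⟨1, e _ (by simp; omega) (by simp; omega) (by simp; omega) (by simp; omega)
        (by simp; omega)⟩
    · exact Or.inr ⟨2, e _ (by simp; omega) (by simp; omega) (by simp; omega) (by simp; omega)
        (by simp; omega)⟩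
    · exact Or.inr ⟨3, e _ (by simp; omega) (by simp; omega) (by simp; omega) (by simp; omega)
        (by simp; omega)⟩
    · exact Or.inr ⟨4, e _ (by simp; omega) (by simp; omega) (by simp; omega) (by simp; omega)
        (by simp; omega)⟩
  · rintro (rfl | ⟨k, rfl⟩) i
    · fin_cases i <;> simp [r]
    · fin_cases k <;> fin_cases i <;> simp [P, Q, r, Fin.sum_univ_five] <;> linarith

end Pool.Agent.Results.MP_83f734_co.Five
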